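import Pool.Agent.Y262.EL.Stm

/-!
# EL: weak eigenfunctions are smooth (assembly)
-/

set_option autoImplicit false

open Set Filter Topology MeasureTheory
open scoped ContDiff ComplexConjugate Real

noncomputable section

namespace Pool.Agent.Y923.EL

open Pool.Agent.Y262.EG Pool.Agent.Y262.EX Pool.Agent.Y262.EL

/-- Weak eigenfunctions are smooth eigenfunctions, from the weak equation in the covering, interior
regularity and the passage from local to global regularity. -/
theorem ell : StWk → StRegu → StGlo → StEll := by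
  intro hW hR hG M P _ _ _ _ _ _ Ω φ pr q D μ hU hS hC hA lam u hE
  refine hG M P Ω φ pr q μ hU hA lam u fun z0 hz0 => ?_
  obtain ⟨r, hr, hB, hI, hL, hK⟩ := hW M P Ω φ pr q D μ hU hS hC hA lam u hE z0 hz0
  have ha : ContDiffOn ℝ ∞ (fun z => lam * Real.exp (2 * φ z)) (Metric.ball z0 r) :=
    contDiffOn_const.mul ((contDiffOn_const.mul (hU.smooth.mono hB)).exp)
  obtain ⟨V, hV, hae, heq⟩ := hR z0 r _ _ hr ha hL hK
  exact ⟨r, V, hr, hB, hI, hV, hae, heq⟩

end Pool.Agent.Y923.EL
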